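import Mathlib

namespace Pool.Agent.Results.MP_e9f532_co.QuasiPolynomial

open Finset

/-- The distinct intersections of two different members of `A`. -/
def inters {n : ℕ} (A : Finset (Finset (Fin n))) : Finset (Finset (Fin n)) :=
  A.offDiag.image (fun p => p.1 ∩ p.2)

open Classical in
/-- `f n` is the largest number of distinct pairwise intersections in an antichain of subsets of
an `n`-element set. -/
noncomputable def f (n : ℕ) : ℕ :=
  Finset.sup ((univ : Finset (Finset (Finset (Fin n)))).filter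
    (fun A : Finset (Finset (Fin n)) =>
      IsAntichain (· ⊆ ·) (A : Set (Finset (Fin n)))))
    (fun A : Finset (Finset (Fin n)) => (inters A).card)

lemma mem_inters {n : ℕ} (A : Finset (Finset (Fin n))) (B : Finset (Fin n)) :
    B ∈ inters A ↔ ∃ X ∈ A, ∃ X' ∈ A, X ≠ X' ∧ X ∩ X' = B := by
  unfold inters
  simp only [mem_image, mem_offDiag, Prod.exists]
  constructor
  · rintro ⟨a, b, ⟨h1, h2, h3⟩, h4⟩
    exact ⟨a, h1, b, h2, h3, h4⟩
  · rintro ⟨a, h1, b, h2, h3, h4⟩
    exact ⟨a, b, ⟨h1, h2, h3⟩, h4⟩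

lemma poly_le (a : ℕ) : 2 * (a + 3) * (a * (2 * (a + 3) + 1) + 1) ≤ 2 ^ (a + 6) := by
  induction a with
  | zero => norm_num
  | succ b ih =>
    rcases Nat.lt_or_ge b 3 with h | h
    · interval_cases b <;> norm_num
    · have e : 2 ^ (b + 1 + 6) = 2 * 2 ^ (b + 6) := by ring
      rw [e]
      refine le_trans ?_ (Nat.mul_le_mul_left 2 ih)
      obtain ⟨c, rfl⟩ : ∃ c, b = c + 3 := ⟨b - 3, by omega⟩
      nlinarith [Nat.zero_le c, Nat.zero_le (c * c), Nat.zero_le (c * c * c)]

lemma bern (n : ℕ) (hn : 1 ≤ n) : 2 * n ^ n ≤ (n + 1) ^ n := by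
  have h0 : (0 : ℝ) < n := by exact_mod_cast hn
  have h1 : 1 + (n : ℝ) * (1 / n) ≤ (1 + 1 / (n : ℝ)) ^ n :=
    one_add_mul_le_pow (by have : (0 : ℝ) < 1 / n := by positivity
                           linarith) n
  have h2 : (n : ℝ) * (1 / n) = 1 := by field_simp
  rw [h2] at h1
  have h3 : ((n : ℝ) + 1) ^ n = (1 + 1 / (n : ℝ)) ^ n * (n : ℝ) ^ n := by
    rw [← mul_pow]
    congr 1
    field_simp
  have h4 : (2 : ℝ) * (n : ℝ) ^ n ≤ ((n : ℝ) + 1) ^ n := by
    rw [h3]
    apply mul_le_mul_of_nonneg_right _ (by positivity)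
    linarith
  exact_mod_cast h4

lemma ineq (n a : ℕ) (hn : 1 ≤ n) (ha : n + 1 ≤ 2 ^ a) :
    n.choose (2 * (a + 3)) * (n + 1) * n ^ (Nat.centralBinom (a + 3)) <
      (n + 1) ^ (Nat.centralBinom (a + 3)) := by
  obtain ⟨N, hN⟩ : ∃ N, N = Nat.centralBinom (a + 3) := ⟨_, rfl⟩
  rw [← hN]
  have h4 : 4 ^ (a + 3) ≤ 2 * (a + 3) * N := by
    rw [hN]
    exact Nat.four_pow_le_two_mul_self_mul_centralBinom (a + 3) (by omega)
  have hnN : n * (a * (2 * (a + 3) + 1) + 1) ≤ N := by
    have h5 : 2 * (a + 3) * (n * (a * (2 * (a + 3) + 1) + 1)) ≤ 2 * (a + 3) * N := by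
      refine le_trans ?_ h4
      calc 2 * (a + 3) * (n * (a * (2 * (a + 3) + 1) + 1))
          = n * (2 * (a + 3) * (a * (2 * (a + 3) + 1) + 1)) := by ring
        _ ≤ 2 ^ a * 2 ^ (a + 6) := Nat.mul_le_mul (by omega) (poly_le a)
        _ = 4 ^ (a + 3) := by
          rw [show (4 : ℕ) = 2 ^ 2 by norm_num, ← pow_mul, ← pow_add]
          congr 1
          ring
    exact Nat.le_of_mul_le_mul_left h5 (by omega)
  obtain ⟨t, ht⟩ : ∃ t, t = N / n := ⟨_, rfl⟩
  have ht1 : a * (2 * (a + 3) + 1) + 1 ≤ t := by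
    rw [ht, Nat.le_div_iff_mul_le (by omega), mul_comm]
    exact hnN
  have hdec : N = n * t + N % n := by rw [ht]; exact (Nat.div_add_mod N n).symm
  have hlow : 2 ^ t * n ^ N ≤ (n + 1) ^ N := by
    calc 2 ^ t * n ^ N = (2 * n ^ n) ^ t * n ^ (N % n) := by
          conv_lhs => rw [hdec]
          rw [pow_add, mul_pow, ← pow_mul]
          ring
      _ ≤ ((n + 1) ^ n) ^ t * (n + 1) ^ (N % n) :=
          Nat.mul_le_mul (Nat.pow_le_pow_left (bern n hn) _) (Nat.pow_le_pow_left (by omega) _)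
      _ = (n + 1) ^ N := by
          conv_rhs => rw [hdec]
          rw [pow_add, ← pow_mul]
  have hchoose : n.choose (2 * (a + 3)) * (n + 1) < 2 ^ t := by
    calc n.choose (2 * (a + 3)) * (n + 1) ≤ n ^ (2 * (a + 3)) * (n + 1) :=
          Nat.mul_le_mul_right _ (Nat.choose_le_pow n _)
      _ ≤ (n + 1) ^ (2 * (a + 3)) * (n + 1) :=
          Nat.mul_le_mul_right _ (Nat.pow_le_pow_left (by omega) _)
      _ = (n + 1) ^ (2 * (a + 3) + 1) := by rw [pow_succ]
      _ ≤ (2 ^ a) ^ (2 * (a + 3) + 1) := Nat.pow_le_pow_left ha _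
      _ = 2 ^ (a * (2 * (a + 3) + 1)) := by rw [← pow_mul]
      _ < 2 ^ t := Nat.pow_lt_pow_right (by norm_num) (by omega)
  calc n.choose (2 * (a + 3)) * (n + 1) * n ^ N < 2 ^ t * n ^ N :=
        Nat.mul_lt_mul_of_pos_right hchoose (by positivity)
    _ ≤ _ := hlow

/-- A colouring of the `k`-sets with `n + 1` colours such that every `2k`-set contains a `k`-set
of every colour, `k = a + 3`. -/
lemma coloring (n a : ℕ) (hn : 1 ≤ n) (ha : n + 1 ≤ 2 ^ a) :
    ∃ c : Finset (Fin n) → Fin (n + 1), ∀ W : Finset (Fin n), W.card = 2 * (a + 3) →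
      ∀ j, ∃ D ⊆ W, D.card = a + 3 ∧ c D = j := by
  classical
  by_contra hcon
  push Not at hcon
  obtain ⟨N, hN⟩ : ∃ N, N = Nat.centralBinom (a + 3) := ⟨_, rfl⟩
  have hineq := ineq n a hn ha
  rw [← hN] at hineq
  let bad : Finset (Fin n) × Fin (n + 1) → Finset (Finset (Fin n) → Fin (n + 1)) := fun p =>
    Fintype.piFinset (fun D => if D ∈ p.1.powersetCard (a + 3) then univ.erase p.2 else univ)
  have hcover : (univ : Finset (Finset (Fin n) → Fin (n + 1))) ⊆
      ((univ.powersetCard (2 * (a + 3))) ×ˢ univ).biUnion bad := by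
    intro c _
    obtain ⟨W, hW, j, hj⟩ := hcon c
    rw [mem_biUnion]
    refine ⟨(W, j), ?_, ?_⟩
    · rw [mem_product, mem_powersetCard]
      exact ⟨⟨subset_univ _, hW⟩, mem_univ _⟩
    · simp only [bad, Fintype.mem_piFinset]
      intro D
      split_ifs with h
      · rw [mem_powersetCard] at h
        rw [mem_erase]
        exact ⟨hj D h.1 h.2, mem_univ _⟩
      · exact mem_univ _
  have hbad : ∀ p ∈ (univ.powersetCard (2 * (a + 3))) ×ˢ (univ : Finset (Fin (n + 1))),
      (bad p).card * (n + 1) ^ N = n ^ N * (n + 1) ^ (2 ^ n) := by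
    rintro ⟨W, j⟩ hp
    rw [mem_product, mem_powersetCard] at hp
    have hW : W.card = 2 * (a + 3) := hp.1.2
    simp only [bad, Fintype.card_piFinset]
    have hNc : (W.powersetCard (a + 3)).card = N := by
      rw [card_powersetCard, hW, hN, Nat.centralBinom]
    have e1 : (∏ D : Finset (Fin n), (if D ∈ W.powersetCard (a + 3) then univ.erase j
        else (univ : Finset (Fin (n + 1)))).card) =
        ∏ D : Finset (Fin n), (if D ∈ W.powersetCard (a + 3) then n else n + 1) := by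
      apply prod_congr rfl
      intro D _
      split_ifs
      · rw [card_erase_of_mem (mem_univ _)]
        simp
      · simp
    rw [e1, prod_ite, prod_const, prod_const]
    have e2 : (univ.filter (fun D => D ∈ W.powersetCard (a + 3))).card = N := by
      rw [filter_mem_eq_inter, univ_inter, hNc]
    have e3 : (univ.filter (fun D => D ∈ W.powersetCard (a + 3))).card +
        (univ.filter (fun D => D ∉ W.powersetCard (a + 3))).card = 2 ^ n := by
      rw [card_filter_add_card_filter_not]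
      simp
    rw [e2] at e3 ⊢
    rw [mul_assoc, ← pow_add, add_comm _ N, e3]
  have hcard : (n + 1) ^ (2 ^ n) * (n + 1) ^ N ≤
      n.choose (2 * (a + 3)) * (n + 1) * (n ^ N * (n + 1) ^ (2 ^ n)) := by
    have h1 : (n + 1) ^ (2 ^ n) ≤
        ∑ p ∈ (univ.powersetCard (2 * (a + 3))) ×ˢ (univ : Finset (Fin (n + 1))),
          (bad p).card := by
      calc (n + 1) ^ (2 ^ n) = (univ : Finset (Finset (Fin n) → Fin (n + 1))).card := by
            rw [card_univ, Fintype.card_fun]; simp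
        _ ≤ _ := card_le_card hcover
        _ ≤ _ := card_biUnion_le
    calc (n + 1) ^ (2 ^ n) * (n + 1) ^ N ≤
        (∑ p ∈ (univ.powersetCard (2 * (a + 3))) ×ˢ (univ : Finset (Fin (n + 1))),
          (bad p).card) * (n + 1) ^ N := Nat.mul_le_mul_right _ h1
      _ = ∑ p ∈ (univ.powersetCard (2 * (a + 3))) ×ˢ (univ : Finset (Fin (n + 1))),
          n ^ N * (n + 1) ^ (2 ^ n) := by
          rw [sum_mul]
          exact sum_congr rfl hbad
      _ = _ := by
          rw [sum_const, card_product, card_powersetCard, smul_eq_mul]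
          simp
  have hpos : 0 < (n + 1) ^ (2 ^ n) := by positivity
  have h2 : n.choose (2 * (a + 3)) * (n + 1) * (n ^ N * (n + 1) ^ (2 ^ n)) <
      (n + 1) ^ (2 ^ n) * (n + 1) ^ N := by
    calc n.choose (2 * (a + 3)) * (n + 1) * (n ^ N * (n + 1) ^ (2 ^ n)) =
        (n + 1) ^ (2 ^ n) * (n.choose (2 * (a + 3)) * (n + 1) * n ^ N) := by ring
      _ < _ := Nat.mul_lt_mul_of_pos_left hineq hpos
  omega

/-- The first type of members of the antichain. -/
def T {n : ℕ} (k : ℕ) (c : Finset (Fin n) → Fin (n + 1)) (Z X : Finset (Fin n)) : Prop :=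
  (Zᶜ \ X).card = k ∧ (c (Zᶜ \ X) : ℕ) = (X ∩ Z).card ∧ (X ∩ Z).card + k < Z.card

lemma sdiff_card {n : ℕ} (Z X : Finset (Fin n)) : (Z \ X).card + (X ∩ Z).card = Z.card := by
  rw [inter_comm X Z]
  exact card_sdiff_add_card_inter Z X

lemma T_same {n k : ℕ} {c : Finset (Fin n) → Fin (n + 1)} {Z X X' : Finset (Fin n)}
    (h : T k c Z X) (h' : T k c Z X') (hs : X ⊆ X') : X = X' := by
  obtain ⟨h1, h2, -⟩ := h
  obtain ⟨h1', h2', -⟩ := h'
  have e : Zᶜ \ X' = Zᶜ \ X :=
    eq_of_subset_of_card_le (sdiff_subset_sdiff (Subset.refl _) hs) (by omega)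
  rw [e] at h2'
  have e2 : X ∩ Z = X' ∩ Z :=
    eq_of_subset_of_card_le (inter_subset_inter_right hs) (by omega)
  ext x
  by_cases hx : x ∈ Z
  · have := congrArg (x ∈ ·) e2
    simpa [hx] using this
  · have := congrArg (x ∈ ·) e
    simp only [mem_sdiff, mem_compl, hx, not_false_eq_true, true_and, eq_iff_iff] at this
    exact (not_iff_not.1 this).symm

lemma T_diff {n k : ℕ} {c : Finset (Fin n) → Fin (n + 1)} {Z X X' : Finset (Fin n)}
    (h : T k c Z X) (h' : T k c Zᶜ X') (hs : X ⊆ X') : False := by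
  obtain ⟨h1, -, -⟩ := h
  obtain ⟨-, -, h3'⟩ := h'
  have e : (Zᶜ \ X').card ≤ (Zᶜ \ X).card := card_le_card (sdiff_subset_sdiff (Subset.refl _) hs)
  have := sdiff_card Zᶜ X'
  omega

lemma exT {n k : ℕ} (hk : 1 ≤ k) (c : Finset (Fin n) → Fin (n + 1))
    (hc : ∀ W : Finset (Fin n), W.card = 2 * k → ∀ j, ∃ D ⊆ W, D.card = k ∧ c D = j)
    (Z B : Finset (Fin n)) (h1 : (B ∩ Z).card + 2 * k ≤ Z.card)
    (h2 : (B ∩ Zᶜ).card + 2 * k ≤ Zᶜ.card) :
    ∃ X, T k c Z X ∧ X ∩ Z = B ∩ Z ∧ B ∩ Zᶜ ⊆ X := by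
  have h3 := sdiff_card Zᶜ B
  obtain ⟨W, hW1, hW2⟩ := exists_subset_card_eq (s := Zᶜ \ B) (n := 2 * k) (by omega)
  have hlt : (B ∩ Z).card < n + 1 := by
    have := card_le_univ (B ∩ Z)
    rw [Fintype.card_fin] at this
    omega
  obtain ⟨D, hD1, hD2, hD3⟩ := hc W hW2 ⟨(B ∩ Z).card, hlt⟩
  have hDZ : ∀ x ∈ D, x ∉ Z ∧ x ∉ B := by
    intro x hx
    have := hW1 (hD1 hx)
    rw [mem_sdiff, mem_compl] at this
    exact this
  have hXZ : ((B ∩ Z) ∪ (Zᶜ \ D)) ∩ Z = B ∩ Z := by
    ext x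
    simp only [mem_inter, mem_union, mem_sdiff, mem_compl]
    tauto
  have hXZc : Zᶜ \ ((B ∩ Z) ∪ (Zᶜ \ D)) = D := by
    ext x
    have := hDZ x
    simp only [mem_inter, mem_union, mem_sdiff, mem_compl]
    tauto
  refine ⟨(B ∩ Z) ∪ (Zᶜ \ D), ⟨?_, ?_, ?_⟩, hXZ, ?_⟩
  · rw [hXZc, hD2]
  · rw [hXZc, hXZ, hD3]
  · rw [hXZ]; omega
  · intro x hx
    have := hDZ x
    simp only [mem_inter, mem_union, mem_sdiff, mem_compl] at hx ⊢
    tauto

lemma cover {n k : ℕ} (hk : 1 ≤ k) (c : Finset (Fin n) → Fin (n + 1))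
    (hc : ∀ W : Finset (Fin n), W.card = 2 * k → ∀ j, ∃ D ⊆ W, D.card = k ∧ c D = j)
    (Z : Finset (Fin n)) :
    ∃ A : Finset (Finset (Fin n)), IsAntichain (· ⊆ ·) (A : Set (Finset (Fin n))) ∧
      ∀ B : Finset (Fin n), (B ∩ Z).card + 2 * k ≤ Z.card →
        (B ∩ Zᶜ).card + 2 * k ≤ Zᶜ.card → B ∈ inters A := by
  classical
  refine ⟨univ.filter (fun X => T k c Z X ∨ T k c Zᶜ X), ?_, ?_⟩
  · intro X hX X' hX' hne hsub
    simp only [coe_filter, mem_univ, true_and, Set.mem_ofPred_eq] at hX hX'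
    rcases hX with h | h <;> rcases hX' with h' | h'
    · exact hne (T_same h h' hsub)
    · exact T_diff h h' hsub
    · exact T_diff (Z := Zᶜ) h (by rw [compl_compl]; exact h') hsub
    · exact hne (T_same h h' hsub)
  · intro B h1 h2
    obtain ⟨X, hX1, hX2, hX3⟩ := exT hk c hc Z B h1 h2
    obtain ⟨X', hX1', hX2', hX3'⟩ := exT hk c hc Zᶜ B h2 (by rw [compl_compl]; exact h1)
    rw [compl_compl] at hX3'
    rw [mem_inters]
    refine ⟨X, ?_, X', ?_, ?_, ?_⟩
    · simp only [mem_filter, mem_univ, true_and]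
      exact Or.inl hX1
    · simp only [mem_filter, mem_univ, true_and]
      exact Or.inr hX1'
    · intro he
      subst he
      have e1 := hX1.2.2
      have e2 := hX1'.1
      rw [compl_compl] at e2
      have := sdiff_card Z X
      omega
    · ext x
      have a1 := congrArg (x ∈ ·) hX2
      have a2 := congrArg (x ∈ ·) hX2'
      have a3 : x ∈ B ∩ Zᶜ → x ∈ X := fun h => hX3 h
      have a4 : x ∈ B ∩ Z → x ∈ X' := fun h => hX3' h
      simp only [mem_inter, mem_compl, eq_iff_iff] at a1 a2 a3 a4 ⊢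
      tauto

lemma countSmall {α : Type*} [DecidableEq α] (Z : Finset α) (r : ℕ) :
    (Z.powerset.filter (fun W => W.card ≤ r)).card ≤ (Z.card + 1) ^ r := by
  induction r with
  | zero =>
    have : Z.powerset.filter (fun W => W.card ≤ 0) ⊆ {∅} := by
      intro W hW
      simp only [mem_filter, nonpos_iff_eq_zero, card_eq_zero] at hW
      simp [hW.2]
    simpa using card_le_card this
  | succ r ih =>
    have hsub : Z.powerset.filter (fun W => W.card ≤ r + 1) ⊆
        (Z.powerset.filter (fun W => W.card ≤ r)) ∪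
        Z.biUnion (fun x => (Z.powerset.filter (fun W => W.card ≤ r)).image (insert x)) := by
      intro W hW
      simp only [mem_filter, mem_powerset] at hW
      rw [mem_union]
      by_cases h : W.card ≤ r
      · left
        simp only [mem_filter, mem_powerset]
        exact ⟨hW.1, h⟩
      · right
        have hne : W.Nonempty := by
          rw [← card_pos]; omega
        obtain ⟨x, hx⟩ := hne
        rw [mem_biUnion]
        refine ⟨x, hW.1 hx, ?_⟩
        rw [mem_image]
        refine ⟨W.erase x, ?_, insert_erase hx⟩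
        simp only [mem_filter, mem_powerset]
        refine ⟨(erase_subset _ _).trans hW.1, ?_⟩
        rw [card_erase_of_mem hx]
        omega
    calc _ ≤ _ := card_le_card hsub
      _ ≤ (Z.powerset.filter (fun W => W.card ≤ r)).card + _ := card_union_le _ _
      _ ≤ (Z.powerset.filter (fun W => W.card ≤ r)).card +
          ∑ x ∈ Z, ((Z.powerset.filter (fun W => W.card ≤ r)).image (insert x)).card := by
          exact Nat.add_le_add_left card_biUnion_le _
      _ ≤ (Z.powerset.filter (fun W => W.card ≤ r)).card +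
          ∑ x ∈ Z, (Z.powerset.filter (fun W => W.card ≤ r)).card := by
          exact Nat.add_le_add_left (sum_le_sum (fun x _ => card_image_le)) _
      _ = (Z.card + 1) * (Z.powerset.filter (fun W => W.card ≤ r)).card := by
          rw [sum_const, smul_eq_mul]; ring
      _ ≤ (Z.card + 1) * (Z.card + 1) ^ r := Nat.mul_le_mul_left _ ih
      _ = (Z.card + 1) ^ (r + 1) := by ring

lemma countBig {n : ℕ} (Z : Finset (Fin n)) (r : ℕ) :
    (univ.filter (fun B : Finset (Fin n) => Z.card ≤ (B ∩ Z).card + r)).card ≤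
      (Z.card + 1) ^ r * 2 ^ (Zᶜ.card) := by
  classical
  have : (univ.filter (fun B : Finset (Fin n) => Z.card ≤ (B ∩ Z).card + r)).card ≤
      ((Z.powerset.filter (fun W => W.card ≤ r)) ×ˢ (Zᶜ).powerset).card := by
    apply card_le_card_of_injOn (fun B => (Z \ B, B ∩ Zᶜ))
    · intro B hB
      simp only [coe_filter, mem_univ, true_and, Set.mem_ofPred_eq] at hB
      simp only [coe_product, Set.mem_prod, mem_coe, mem_filter, mem_powerset]
      refine ⟨⟨sdiff_subset, ?_⟩, inter_subset_right⟩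
      have h1 : (Z \ B).card + (B ∩ Z).card = Z.card := by
        rw [inter_comm B Z]
        exact card_sdiff_add_card_inter Z B
      omega
    · intro B _ B' _ he
      simp only [Prod.mk.injEq] at he
      obtain ⟨h1, h2⟩ := he
      ext x
      by_cases hx : x ∈ Z
      · have := congrArg (x ∈ ·) h1
        simp only [mem_sdiff, hx, true_and, eq_iff_iff] at this
        exact not_iff_not.1 this
      · have := congrArg (x ∈ ·) h2
        simpa [hx] using this
  refine this.trans ?_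
  rw [card_product, card_powerset]
  exact Nat.mul_le_mul_right _ (countSmall Z r)

lemma le_f {n : ℕ} (A : Finset (Finset (Fin n)))
    (hA : IsAntichain (· ⊆ ·) (A : Set (Finset (Fin n)))) : (inters A).card ≤ f n := by
  classical
  unfold f
  exact Finset.le_sup (f := fun A : Finset (Finset (Fin n)) => (inters A).card)
    (by simpa using hA)

lemma f_le {n : ℕ} {c : ℕ} (h : ∀ A : Finset (Finset (Fin n)),
    IsAntichain (· ⊆ ·) (A : Set (Finset (Fin n))) → (inters A).card ≤ c) : f n ≤ c := by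
  classical
  unfold f
  apply Finset.sup_le
  intro A hA
  apply h
  simpa using hA


/-- The new bound, in integer form. -/
lemma new_bound (n : ℕ) (hn : 1 ≤ n) :
    2 ^ n ≤ f n + (n + 1) ^ (2 * (Nat.log 2 n + 4)) * (2 ^ (n / 2) + 2 ^ (n - n / 2)) := by
  classical
  obtain ⟨a, ha⟩ : ∃ a, a = Nat.log 2 n + 1 := ⟨_, rfl⟩
  have ha2 : n + 1 ≤ 2 ^ a := by
    rw [ha]
    exact Nat.lt_pow_succ_log_self (by norm_num) n
  obtain ⟨k, hk⟩ : ∃ k, k = a + 3 := ⟨_, rfl⟩
  obtain ⟨c, hc⟩ := coloring n a hn ha2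
  rw [← hk] at hc
  have hk2 : Nat.log 2 n + 4 = k := by omega
  rw [hk2]
  obtain ⟨Z, -, hZc⟩ := exists_subset_card_eq (s := (univ : Finset (Fin n))) (n := n / 2)
    (by rw [card_univ, Fintype.card_fin]; omega)
  have hZc' : Zᶜ.card = n - n / 2 := by
    rw [card_compl, Fintype.card_fin, hZc]
  obtain ⟨A, hA, hcov⟩ := cover (by omega) c hc Z
  have hcount : (inters A)ᶜ.card ≤
      (n + 1) ^ (2 * k) * 2 ^ (n - n / 2) + (n + 1) ^ (2 * k) * 2 ^ (n / 2) := by
    have hsub : (inters A)ᶜ ⊆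
        (univ.filter (fun B : Finset (Fin n) => Z.card ≤ (B ∩ Z).card + 2 * k)) ∪
        (univ.filter (fun B : Finset (Fin n) => Zᶜ.card ≤ (B ∩ Zᶜ).card + 2 * k)) := by
      intro B hB
      rw [mem_compl] at hB
      rw [mem_union, mem_filter, mem_filter]
      by_contra hcon
      push Not at hcon
      apply hB
      apply hcov
      · have := hcon.1 (mem_univ _)
        omega
      · have := hcon.2 (mem_univ _)
        omega
    refine (card_le_card hsub).trans ((card_union_le _ _).trans ?_)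
    have h1 := countBig Z (2 * k)
    have h2 := countBig Zᶜ (2 * k)
    rw [compl_compl] at h2
    rw [hZc, hZc'] at h1
    rw [hZc, hZc'] at h2
    rw [hZc, hZc']
    refine Nat.add_le_add (h1.trans ?_) (h2.trans ?_)
    · exact Nat.mul_le_mul_right _ (Nat.pow_le_pow_left (by omega) _)
    · exact Nat.mul_le_mul_right _ (Nat.pow_le_pow_left (by omega) _)
  have htot : (inters A).card + (inters A)ᶜ.card = 2 ^ n := by
    rw [card_add_card_compl]
    simp
  have := le_f A hA
  calc 2 ^ n = (inters A).card + (inters A)ᶜ.card := htot.symm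
    _ ≤ f n + ((n + 1) ^ (2 * k) * 2 ^ (n - n / 2) + (n + 1) ^ (2 * k) * 2 ^ (n / 2)) :=
        Nat.add_le_add this hcount
    _ = _ := by ring

/-- The known bound. -/
lemma known_bound (n : ℕ) (hn : 1 ≤ n) : (Real.sqrt 2) ^ n < 2 ^ n - (f n : ℝ) := by
  classical
  -- the integer inequality for one antichain
  have hfin : ∀ A : Finset (Finset (Fin n)), IsAntichain (· ⊆ ·) (A : Set (Finset (Fin n))) →
      (Real.sqrt 2) ^ n < 2 ^ n - ((inters A).card : ℝ) := by
    intro A hA
    have hdisj : (inters A).card + A.card ≤ 2 ^ n := by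
      have : Disjoint (inters A) A := by
        rw [Finset.disjoint_left]
        intro B hB hBA
        rw [mem_inters] at hB
        obtain ⟨X, hX, X', hX', hne, he⟩ := hB
        have h1 : B ⊆ X := by rw [← he]; exact inter_subset_left
        have h2 : B ⊆ X' := by rw [← he]; exact inter_subset_right
        have e1 : B = X := hA.eq hBA hX h1
        have e2 : B = X' := hA.eq hBA hX' h2
        exact hne (e1.symm.trans e2)
      rw [← card_union_of_disjoint this]
      refine (card_le_univ _).trans ?_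
      simp
    have hpair : 2 * (inters A).card ≤ A.card * A.card - A.card := by
      rw [← offDiag_card]
      apply mul_card_image_le_card_of_maps_to (f := fun p : Finset (Fin n) × Finset (Fin n) =>
        p.1 ∩ p.2)
      · intro p hp
        exact mem_image_of_mem _ hp
      · intro B hB
        rw [mem_inters] at hB
        obtain ⟨X, hX, X', hX', hne, he⟩ := hB
        have hsub : ({(X, X'), (X', X)} : Finset (Finset (Fin n) × Finset (Fin n))) ⊆
            {a ∈ A.offDiag | a.1 ∩ a.2 = B} := by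
          intro p hp
          rw [mem_insert, mem_singleton] at hp
          rw [mem_filter, mem_offDiag]
          rcases hp with rfl | rfl
          · exact ⟨⟨hX, hX', hne⟩, he⟩
          · exact ⟨⟨hX', hX, hne.symm⟩, by rw [inter_comm]; exact he⟩
        refine le_trans ?_ (card_le_card hsub)
        rw [card_pair]
        intro h
        exact hne (Prod.mk.inj h).1
    set N : ℝ := (A.card : ℝ) with hN
    set I : ℝ := ((inters A).card : ℝ) with hI
    set q : ℝ := (Real.sqrt 2) ^ n with hq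
    have hq2 : q * q = 2 ^ n := by
      rw [hq, ← mul_pow, Real.mul_self_sqrt (by norm_num)]
    have hq1 : 1 < q := one_lt_pow₀ (by
      rw [Real.lt_sqrt (by norm_num)]; norm_num) (by omega)
    have h1 : I + N ≤ 2 ^ n := by
      rw [hI, hN]
      exact_mod_cast hdisj
    have h2 : 2 * I ≤ N * N - N := by
      have h3 : 2 * (inters A).card + A.card ≤ A.card * A.card := by
        rcases Nat.eq_zero_or_pos A.card with h0 | hpos
        · rw [h0] at hpair ⊢
          omega
        · have : A.card ≤ A.card * A.card := Nat.le_mul_of_pos_left _ hpos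
          omega
      have h4 : 2 * I + N ≤ N * N := by
        rw [hI, hN]
        exact_mod_cast h3
      linarith
    have hN0 : 0 ≤ N := by rw [hN]; positivity
    rcases le_or_gt N q with h | h
    · by_cases hN1 : N ≤ 1
      · nlinarith
      · push Not at hN1
        have : N * N - N ≤ q * q - q := by nlinarith
        nlinarith
    · linarith
  -- pass to the maximum
  have : ∃ A : Finset (Finset (Fin n)), IsAntichain (· ⊆ ·) (A : Set (Finset (Fin n))) ∧
      (inters A).card = f n := by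
    have hne : ((univ : Finset (Finset (Finset (Fin n)))).filter
      (fun A : Finset (Finset (Fin n)) =>
        IsAntichain (· ⊆ ·) (A : Set (Finset (Fin n))))).Nonempty := by
      refine ⟨∅, ?_⟩
      simp
    obtain ⟨A, hA, he⟩ := Finset.exists_mem_eq_sup _ hne
      (fun A : Finset (Finset (Fin n)) => (inters A).card)
    refine ⟨A, by simpa using hA, ?_⟩
    rw [← he]
    rfl
  obtain ⟨A, hA, he⟩ := this
  rw [← he]
  exact hfin A hA


lemma main_bound (n : ℕ) (hn : 1 ≤ n) :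
    (2 : ℝ) ^ n - (f n : ℝ) ≤
      (Real.sqrt 2) ^ n * ((n : ℝ) + 1) ^ (2 * Real.logb 2 n + 10) := by
  have h := new_bound n hn
  have h1 : (2 : ℝ) ^ n ≤ f n + ((n : ℝ) + 1) ^ (2 * (Nat.log 2 n + 4)) *
      (2 ^ (n / 2) + 2 ^ (n - n / 2)) := by exact_mod_cast h
  have hs2 : (1 : ℝ) ≤ Real.sqrt 2 := by
    rw [Real.one_le_sqrt]; norm_num
  have hss : Real.sqrt 2 * Real.sqrt 2 = 2 := Real.mul_self_sqrt (by norm_num)
  have hp : ∀ k : ℕ, (2 : ℝ) ^ k = (Real.sqrt 2) ^ (2 * k) := by
    intro k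
    rw [pow_mul, pow_two, hss]
  have hn1 : (1 : ℝ) ≤ n := by exact_mod_cast hn
  have h2 : (2 : ℝ) ^ (n / 2) + 2 ^ (n - n / 2) ≤ (Real.sqrt 2) ^ n * ((n : ℝ) + 1) ^ 2 := by
    have e1 : (2 : ℝ) ^ (n / 2) ≤ (Real.sqrt 2) ^ (n + 1) := by
      rw [hp]; exact pow_le_pow_right₀ hs2 (by omega)
    have e2 : (2 : ℝ) ^ (n - n / 2) ≤ (Real.sqrt 2) ^ (n + 1) := by
      rw [hp]; exact pow_le_pow_right₀ hs2 (by omega)
    have e3 : (Real.sqrt 2) ^ (n + 1) = (Real.sqrt 2) ^ n * Real.sqrt 2 := pow_succ _ _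
    have e4 : Real.sqrt 2 ≤ 2 := by nlinarith
    have e5 : (4 : ℝ) ≤ ((n : ℝ) + 1) ^ 2 := by nlinarith
    have e6 : 0 < (Real.sqrt 2) ^ n := by positivity
    calc (2 : ℝ) ^ (n / 2) + 2 ^ (n - n / 2) ≤ (Real.sqrt 2) ^ n * Real.sqrt 2 +
          (Real.sqrt 2) ^ n * Real.sqrt 2 := by rw [← e3]; exact add_le_add e1 e2
      _ = (Real.sqrt 2) ^ n * (2 * Real.sqrt 2) := by ring
      _ ≤ (Real.sqrt 2) ^ n * ((n : ℝ) + 1) ^ 2 := by
          apply mul_le_mul_of_nonneg_left _ e6.le
          linarith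
  have h3 : ((n : ℝ) + 1) ^ (2 * (Nat.log 2 n + 4)) * ((n : ℝ) + 1) ^ 2 ≤
      ((n : ℝ) + 1) ^ (2 * Real.logb 2 n + 10) := by
    rw [← pow_add, ← Real.rpow_natCast]
    apply Real.rpow_le_rpow_of_exponent_le (by linarith)
    have e1 : ((Nat.log 2 n : ℕ) : ℝ) ≤ Real.logb 2 n := by
      have := Real.natLog_le_logb n 2
      simpa using this
    push_cast
    linarith
  have e7 : 0 < (Real.sqrt 2) ^ n := by positivity
  have e8 : (0 : ℝ) ≤ ((n : ℝ) + 1) ^ (2 * (Nat.log 2 n + 4)) := by positivity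
  calc (2 : ℝ) ^ n - (f n : ℝ) ≤ ((n : ℝ) + 1) ^ (2 * (Nat.log 2 n + 4)) *
      (2 ^ (n / 2) + 2 ^ (n - n / 2)) := by linarith
    _ ≤ ((n : ℝ) + 1) ^ (2 * (Nat.log 2 n + 4)) * ((Real.sqrt 2) ^ n * ((n : ℝ) + 1) ^ 2) :=
        mul_le_mul_of_nonneg_left h2 e8
    _ = (Real.sqrt 2) ^ n * (((n : ℝ) + 1) ^ (2 * (Nat.log 2 n + 4)) * ((n : ℝ) + 1) ^ 2) := by
        ring
    _ ≤ _ := mul_le_mul_of_nonneg_left h3 e7.le

/-- Main result: `2 ^ n - f n` equals `2 ^ (n / 2)` up to a factor `n ^ (O(log n))`. -/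
theorem result (n : ℕ) (hn : 1 ≤ n) :
    (Real.sqrt 2) ^ n < (2 : ℝ) ^ n - (f n : ℝ) ∧
    (2 : ℝ) ^ n - (f n : ℝ) ≤
      (Real.sqrt 2) ^ n * ((n : ℝ) + 1) ^ (2 * Real.logb 2 n + 10) :=
  ⟨known_bound n hn, main_bound n hn⟩

end Pool.Agent.Results.MP_e9f532_co.QuasiPolynomial
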